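import Pool.Agent.TH757.GS.Lap
import Pool.Agent.W182.KO.Strip

/-! Shift of the line through the pole at zero (helper757, job 4431). -/

set_option autoImplicit false

namespace Pool.Agent.TH757.GS

open Complex Filter Topology MeasureTheory Set
open Pool.Agent.W182.KO

noncomputable section

variable {ψ : ℝ → ℝ}

lemma int_Qk (h : CutR ψ) {c : ℝ} (hc : 1 ≤ c) {G : ℝ → ℂ} (hG : Continuous G) {B : ℝ}
    (hB : ∀ y, ‖G y‖ ≤ B) :
    Integrable (fun y : ℝ => Qk ψ (c + y * I) * G y) ∧
    Integrable (fun y : ℝ => Qk ψ (((-c : ℝ) : ℂ) + y * I) * G y) := by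
  obtain ⟨C, hC0, h1, h2⟩ := Qk_bd h
  have hB0 : 0 ≤ B := (norm_nonneg _).trans (hB 0)
  constructor
  · refine (one_add_inv_sq_int.const_mul (C * Real.exp c * B)).mono'
      ((Qk_cont h (by linarith)).mul hG).aestronglyMeasurable (Eventually.of_forall fun y => ?_)
    rw [norm_mul]
    calc _ ≤ (C * Real.exp c * ((1 + |y|) ^ 2)⁻¹) * B := by
          have := h1 c y hc
          have := hB y
          gcongr
      _ = _ := by ring
  · refine (one_add_inv_sq_int.const_mul (C * Real.exp (-c / 2) * B)).mono'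
      ((Qk_cont h (c := -c) (by intro h0; linarith)).mul hG).aestronglyMeasurable
      (Eventually.of_forall fun y => ?_)
    rw [norm_mul]
    calc _ ≤ (C * Real.exp (-c / 2) * ((1 + |y|) ^ 2)⁻¹) * B := by
          have := h2 c y hc
          have := hB y
          gcongr
      _ = _ := by ring

theorem shift_main (h : CutR ψ) {c c' : ℝ} (hc : 1 ≤ c) (hc' : c < c') {F : ℂ → ℂ} {B : ℝ}
    (hd : DifferentiableOn ℂ F {s : ℂ | |s.re| < c'}) (hB : ∀ s : ℂ, |s.re| ≤ c → ‖F s‖ ≤ B) :
    (∫ y : ℝ, Qk ψ (c + y * I) * F (c + y * I)) - 2 * Real.pi * F 0 =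
      ∫ y : ℝ, Qk ψ (((-c : ℝ) : ℂ) + y * I) * F (((-c : ℝ) : ℂ) + y * I) := by
  have hU : IsOpen {s : ℂ | |s.re| < c'} :=
    isOpen_lt (continuous_abs.comp Complex.continuous_re) continuous_const
  have h0U : {s : ℂ | |s.re| < c'} ∈ 𝓝 (0 : ℂ) := hU.mem_nhds (by simp; linarith)
  have hds : DifferentiableOn ℂ (dslope F 0) {s : ℂ | |s.re| < c'} :=
    (Complex.differentiableOn_dslope h0U).2 hd
  have hB0 : 0 ≤ B := (norm_nonneg _).trans (hB 0 (by simp; linarith))
  have hPd := P_diff (rho_TF h)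
  obtain ⟨C, hC0, hC1, hC2⟩ := rho_bd h
  -- bound for the slope
  obtain ⟨B2, hB2⟩ : ∃ B2 : ℝ, ∀ s : ℂ, |s.re| ≤ c → ‖dslope F 0 s‖ ≤ B2 := by
    obtain ⟨B3, hB3⟩ := (isCompact_closedBall (0 : ℂ) 1).exists_bound_of_continuousOn
      (f := dslope F 0) (hds.continuousOn.mono (fun s hs => by
        rw [mem_closedBall_zero_iff] at hs
        show |s.re| < c'
        have := Complex.abs_re_le_norm s
        linarith))
    refine ⟨max (2 * B) B3, fun s hs => ?_⟩
    by_cases h1 : ‖s‖ ≤ 1
    · exact (hB3 s (mem_closedBall_zero_iff.2 h1)).trans (le_max_right _ _)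
    · push Not at h1
      have hs0 : s ≠ 0 := by
        rintro rfl
        rw [norm_zero] at h1
        linarith
      rw [dslope_of_ne _ hs0, slope_def_field, sub_zero, norm_div]
      refine le_trans (div_le_self (norm_nonneg _) h1.le) ?_
      refine (norm_sub_le _ _).trans ?_
      have h2 := hB s hs
      have h3 := hB 0 (by simp; linarith)
      exact le_trans (by linarith) (le_max_left _ _)
  have hB20 : 0 ≤ B2 := (norm_nonneg _).trans (hB2 0 (by simp; linarith))
  have hPb : ∀ s : ℂ, |s.re| ≤ c → ‖P (rho ψ) s‖ ≤ C * Real.exp c / (1 + |s.im|) ^ 2 := by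
    intro s hs
    rw [le_div_iff₀ (by positivity)]
    have h1 : ‖P (rho ψ) s‖ * (1 + ‖s‖) ^ 2 ≤ C * Real.exp c := by
      rcases le_total 0 s.re with h2 | h2
      · refine (hC1 s h2).trans ?_
        have := le_abs_self s.re
        gcongr
        linarith
      · refine (hC2 s h2).trans ?_
        gcongr
        linarith
    refine le_trans ?_ h1
    have := Complex.abs_im_le_norm s
    gcongr
  have hsh := strip_shift (f := fun s => -(P (rho ψ) s * dslope F 0 s)) (a := -c) (b := c)
    (B := C * Real.exp c * B2) (by linarith) (by positivity) (fun s h1 h2 => by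
      have hs : s ∈ {s : ℂ | |s.re| < c'} := by
        show |s.re| < c'
        rw [abs_lt]
        constructor <;> linarith
      exact ((hPd s).mul (hds.differentiableAt (hU.mem_nhds hs))).neg) (fun s h1 h2 => by
      have hs : |s.re| ≤ c := abs_le.2 ⟨h1, h2⟩
      rw [norm_neg, norm_mul]
      calc _ ≤ (C * Real.exp c / (1 + |s.im|) ^ 2) * B2 := by
            have := hPb s hs
            have := hB2 s hs
            gcongr
        _ = _ := by ring)
  have hline : ∀ (r : ℝ), r ≠ 0 → ∀ y : ℝ, -(P (rho ψ) ((r : ℂ) + y * I) *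
      dslope F 0 ((r : ℂ) + y * I)) = Qk ψ ((r : ℂ) + y * I) * F ((r : ℂ) + y * I) -
        Qk ψ ((r : ℂ) + y * I) * F 0 := by
    intro r hr y
    have hs0 : (r : ℂ) + y * I ≠ 0 := by
      intro h0
      have := congrArg Complex.re h0
      simp at this
      exact hr this
    rw [dslope_of_ne _ hs0, slope_def_field, sub_zero]
    unfold Qk
    field_simp
    ring
  have hFc : ∀ r : ℝ, |r| ≤ c → Continuous (fun y : ℝ => F ((r : ℂ) + y * I)) := by
    intro r hr
    rw [continuous_iff_continuousAt]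
    intro y
    have h1 : ((r : ℂ) + y * I) ∈ {s : ℂ | |s.re| < c'} := by
      show |((r : ℂ) + y * I).re| < c'
      have e : ((r : ℂ) + y * I).re = r := by simp
      rw [e]
      linarith
    have h3 := (hd.differentiableAt (hU.mem_nhds h1)).continuousAt
    exact ContinuousAt.comp (f := fun y : ℝ => ((r : ℂ) + y * I)) h3 (by fun_prop)
  have hFb : ∀ r : ℝ, |r| ≤ c → ∀ y : ℝ, ‖F ((r : ℂ) + y * I)‖ ≤ B := by
    intro r hr y
    apply hB
    have e : ((r : ℂ) + y * I).re = r := by simp
    rw [e]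
    exact hr
  have hcc : |c| ≤ c := by rw [abs_of_pos (by linarith)]
  have hcn : |(-c)| ≤ c := by rw [abs_neg]; exact hcc
  have i1 := (int_Qk h hc (hFc c hcc) (hFb c hcc)).1
  have i2 := (int_Qk h hc (hFc (-c) hcn) (hFb (-c) hcn)).2
  have i3 := int_Qk h hc (continuous_const (y := F 0)) (B := B)
    (fun _ => hB 0 (by simp; linarith))
  have e1 : ∫ y : ℝ, Qk ψ ((c : ℂ) + y * I) * F 0 = 2 * Real.pi * F 0 := by
    rw [integral_mul_const]
    have h1 := inv_pos' h hc 0
    have h2 : (fun y : ℝ => Qk ψ (c + y * I) * exp (-(((0 : ℝ) : ℂ) * y) * I)) =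
        fun y : ℝ => Qk ψ (c + y * I) := by
      funext y
      simp
    rw [h2] at h1
    rw [h1, h.one 0 (by norm_num)]
    simp
  have e2 : ∫ y : ℝ, Qk ψ (((-c : ℝ) : ℂ) + y * I) * F 0 = 0 := by
    rw [integral_mul_const]
    have h1 := inv_neg' h hc 0
    have h2 : (fun y : ℝ => Qk ψ (((-c : ℝ) : ℂ) + y * I) * exp (-(((0 : ℝ) : ℂ) * y) * I)) =
        fun y : ℝ => Qk ψ (((-c : ℝ) : ℂ) + y * I) := by
      funext y
      simp
    rw [h2] at h1
    rw [h1, h.one 0 (by norm_num)]
    simp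
  simp only [hline (-c) (by intro h0; linarith), hline c (by intro h0; linarith)] at hsh
  rw [integral_sub i2 i3.2, integral_sub i1 i3.1, e1, e2, sub_zero] at hsh
  exact hsh.symm

end

end Pool.Agent.TH757.GS
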