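import Pool.Agent.W182.KO.PT

/-! Laplace inversion for smooth functions that are constant at both ends (helper757, job 4431). -/

set_option autoImplicit false

namespace Pool.Agent.TH757.GS

open Complex Filter Topology MeasureTheory Set
open Pool.Agent.W182.KO
open scoped ContDiff FourierTransform

noncomputable section

lemma inv_line {θ : ℝ → ℂ} (hθ : Continuous θ) {c : ℝ}
    (hi : Integrable (fun ξ : ℝ => θ ξ * exp (ξ * c))) {K : ℝ}
    (hK : ∀ y : ℝ, ‖P θ (c + y * I)‖ ≤ K * ((1 + |y|) ^ 2)⁻¹)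
    (hPc : Continuous (fun y : ℝ => P θ (c + y * I))) (x : ℝ) :
    ∫ y : ℝ, P θ (c + y * I) * exp (-(x * y) * I) = 2 * Real.pi * (θ x * exp (x * c)) := by
  set f : ℝ → ℂ := fun ξ => θ ξ * exp (ξ * c) with hf
  have hfc : Continuous f := by fun_prop
  have hF : ∀ w : ℝ, 𝓕 f w = P θ (c + ((-2 * Real.pi * w : ℝ) : ℂ) * I) := by
    intro w
    rw [Real.fourier_real_eq_integral_exp_smul]
    unfold P
    congr 1; funext v
    rw [smul_eq_mul, hf]
    simp only
    rw [mul_comm, mul_assoc, ← exp_add]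
    congr 2
    push_cast; ring
  have hK0 : 0 ≤ K := by
    have h1 := hK 0
    have h2 := (norm_nonneg _).trans h1
    simpa using h2
  have hFi : Integrable (𝓕 f) := by
    have hb : Integrable (fun w : ℝ => K * ((1 + |w|) ^ 2)⁻¹) :=
      one_add_inv_sq_int.const_mul _
    refine hb.mono' ?_ (Eventually.of_forall fun w => ?_)
    · have : Continuous (𝓕 f) := by
        have : (𝓕 f) = fun w : ℝ => P θ (c + ((-2 * Real.pi * w : ℝ) : ℂ) * I) := funext hF
        rw [this]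
        exact hPc.comp (by fun_prop)
      exact this.aestronglyMeasurable
    · rw [hF]
      refine (hK _).trans ?_
      have h2 : |w| ≤ |(-2 * Real.pi * w : ℝ)| := by
        rw [abs_mul, abs_mul, abs_neg, abs_two, abs_of_pos Real.pi_pos]
        have := Real.pi_gt_three
        have := abs_nonneg w
        nlinarith
      have h3 : 0 < (1 + |w|) ^ 2 := by positivity
      gcongr
  have hinv := congrFun (Continuous.fourierInv_fourier_eq hfc hi hFi) x
  rw [Real.fourierInv_eq'] at hinv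
  have hs := MeasureTheory.Measure.integral_comp_mul_left
    (fun w : ℝ => P θ (c + ((-2 * Real.pi * w : ℝ) : ℂ) * I) * exp (2 * Real.pi * w * x * I))
    (-(1 / (2 * Real.pi)))
  have hpi := Real.pi_pos
  have e2 : (∫ v : ℝ, exp ((↑(2 * Real.pi * inner ℝ v x) * I)) • 𝓕 f v) =
      ∫ w : ℝ, P θ (c + ((-2 * Real.pi * w : ℝ) : ℂ) * I) * exp (2 * Real.pi * w * x * I) := by
    congr 1; funext v
    rw [hF, smul_eq_mul, mul_comm]
    have hin : inner ℝ v x = v * x := by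
      rw [real_inner_comm]; simp
    rw [hin]
    congr 2
    push_cast; ring
  rw [e2] at hinv
  rw [hinv] at hs
  have e3 : (∫ y : ℝ, P θ (c + y * I) * exp (-(x * y) * I)) =
      ∫ v : ℝ, P θ (c + ((-2 * Real.pi * (-(1 / (2 * Real.pi)) * v) : ℝ) : ℂ) * I) *
        exp (2 * Real.pi * ((-(1 / (2 * Real.pi)) * v : ℝ) : ℂ) * x * I) := by
    congr 1; funext y
    have hpc : (Real.pi : ℂ) ≠ 0 := by exact_mod_cast hpi.ne'
    congr 2
    · push_cast; field_simp
    · push_cast; field_simp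
  rw [e3, hs]
  have e4 : |(-(1 / (2 * Real.pi)))⁻¹| = 2 * Real.pi := by
    rw [abs_inv, abs_neg, abs_of_pos (by positivity)]
    field_simp
  rw [e4, Complex.real_smul]
  push_cast
  rfl

lemma ibp {θ ρ : ℝ → ℂ} (hd : ∀ x, HasDerivAt θ (ρ x) x) (z : ℂ)
    (hi1 : Integrable (fun ξ : ℝ => θ ξ * exp (ξ * z)))
    (hi2 : Integrable (fun ξ : ℝ => ρ ξ * exp (ξ * z))) : z * P θ z = -P ρ z := by
  have h1 : ∀ ξ : ℝ, HasDerivAt (fun ξ : ℝ => exp (ξ * z)) (exp (ξ * z) * z) ξ := by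
    intro ξ
    have := ((hasDerivAt_id ξ).ofReal_comp.mul_const z).cexp
    simpa using this
  have hi := integral_mul_deriv_eq_deriv_mul_of_integrable (u := θ) (u' := ρ)
    (v := fun ξ : ℝ => exp (ξ * z)) (v' := fun ξ : ℝ => exp (ξ * z) * z)
    (fun ξ _ => hd ξ) (fun ξ _ => h1 ξ) ?_ ?_ ?_
  · unfold P
    rw [← hi, ← integral_const_mul]
    congr 1; funext ξ; ring
  · refine (hi1.mul_const z).congr (Eventually.of_forall fun ξ => ?_)
    simp only [Pi.mul_apply]; ring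
  · exact hi2
  · exact hi1

/-- smooth cut-offs -/
structure CutR (ψ : ℝ → ℝ) : Prop where
  cd : ContDiff ℝ ∞ ψ
  bd : ∀ x, 0 ≤ ψ x ∧ ψ x ≤ 1
  one : ∀ x, x ≤ 1 / 2 → ψ x = 1
  zero : ∀ x, 1 ≤ x → ψ x = 0

variable {ψ : ℝ → ℝ}

lemma int_pos (h : CutR ψ) {z : ℂ} (hz : 0 < z.re) :
    Integrable (fun ξ : ℝ => (ψ ξ : ℂ) * exp (ξ * z)) := by
  have hc : Continuous ψ := h.cd.continuous
  have hb : IntegrableOn (fun ξ : ℝ => Real.exp (z.re * ξ)) (Iic 1) :=
    integrableOn_exp_mul_Iic hz 1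
  have hb2 : Integrable (Set.indicator (Iic 1) (fun ξ : ℝ => Real.exp (z.re * ξ))) :=
    (integrable_indicator_iff measurableSet_Iic).2 hb
  refine hb2.mono' (Continuous.aestronglyMeasurable (by fun_prop))
    (Eventually.of_forall fun ξ => ?_)
  by_cases hξ : ξ ≤ 1
  · rw [indicator_of_mem (mem_Iic.2 hξ), norm_mul, Complex.norm_exp, Complex.norm_real,
      Real.norm_of_nonneg (h.bd ξ).1]
    have e : ((ξ : ℂ) * z).re = z.re * ξ := by simp; ring
    rw [e]
    exact mul_le_of_le_one_left (Real.exp_pos _).le (h.bd ξ).2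
  · rw [indicator_of_notMem (by simpa using hξ), h.zero ξ (by linarith)]
    simp

lemma int_neg (h : CutR ψ) {z : ℂ} (hz : z.re < 0) :
    Integrable (fun ξ : ℝ => ((ψ ξ - 1 : ℝ) : ℂ) * exp (ξ * z)) := by
  have hc : Continuous ψ := h.cd.continuous
  have hb : IntegrableOn (fun ξ : ℝ => Real.exp (z.re * ξ)) (Ioi (1 / 2)) :=
    integrableOn_exp_mul_Ioi hz (1 / 2)
  have hb2 : Integrable (Set.indicator (Ioi (1 / 2)) (fun ξ : ℝ => Real.exp (z.re * ξ))) :=
    (integrable_indicator_iff measurableSet_Ioi).2 hb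
  refine hb2.mono' (Continuous.aestronglyMeasurable (by fun_prop))
    (Eventually.of_forall fun ξ => ?_)
  by_cases hξ : 1 / 2 < ξ
  · rw [indicator_of_mem (mem_Ioi.2 hξ), norm_mul, Complex.norm_exp, Complex.norm_real,
      Real.norm_eq_abs]
    have e : ((ξ : ℂ) * z).re = z.re * ξ := by simp; ring
    rw [e]
    refine mul_le_of_le_one_left (Real.exp_pos _).le ?_
    rw [abs_le]
    have := h.bd ξ
    constructor <;> linarith
  · rw [indicator_of_notMem (by simpa using hξ), h.one ξ (by linarith)]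
    simp

/-- the derivative -/
def rho (ψ : ℝ → ℝ) : ℝ → ℂ := fun x => ((deriv ψ x : ℝ) : ℂ)

lemma rho_zero (h : CutR ψ) {x : ℝ} (hx : x < 1 / 2 ∨ 1 < x) : rho ψ x = 0 := by
  unfold rho
  rcases hx with hx | hx
  · have : ψ =ᶠ[𝓝 x] fun _ => 1 := by
      filter_upwards [gt_mem_nhds hx] with y hy
      exact h.one y hy.le
    rw [this.deriv_eq]; simp
  · have : ψ =ᶠ[𝓝 x] fun _ => 0 := by
      filter_upwards [lt_mem_nhds hx] with y hy
      exact h.zero y hy.le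
    rw [this.deriv_eq]; simp

lemma rho_cd (h : CutR ψ) : ContDiff ℝ ∞ (rho ψ) :=
  Complex.ofRealCLM.contDiff.comp (contDiff_infty_iff_deriv.1 h.cd).2

lemma rho_TF (h : CutR ψ) : TF 1 (rho ψ) where
  cd := rho_cd h
  cs := HasCompactSupport.intro (K := Icc (1 / 2) 1) isCompact_Icc (fun x hx => by
    apply rho_zero h
    rw [mem_Icc, not_and_or, not_le, not_le] at hx
    exact hx)
  sp ξ hξ := rho_zero h (Or.inr hξ)

lemma rho_TF' (h : CutR ψ) : TF (-(1 / 2)) (fun x => rho ψ (-x)) where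
  cd := (rho_cd h).comp contDiff_neg
  cs := HasCompactSupport.intro (K := Icc (-1) (-(1 / 2))) isCompact_Icc (fun x hx => by
    apply rho_zero h
    rw [mem_Icc, not_and_or, not_le, not_le] at hx
    rcases hx with hx | hx
    · right; linarith
    · left; linarith)
  sp ξ hξ := rho_zero h (Or.inl (by linarith))

lemma P_refl (ρ : ℝ → ℂ) (z : ℂ) : P (fun x => ρ (-x)) z = P ρ (-z) := by
  unfold P
  rw [← integral_neg_eq_self (fun ξ : ℝ => ρ ξ * exp (ξ * -z))]
  congr 1; funext ξ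
  congr 2
  push_cast; ring

/-- decay of the transform of the derivative -/
lemma rho_bd (h : CutR ψ) : ∃ C : ℝ, 0 ≤ C ∧
    (∀ z : ℂ, 0 ≤ z.re → ‖P (rho ψ) z‖ * (1 + ‖z‖) ^ 2 ≤ C * Real.exp z.re) ∧
    ∀ z : ℂ, z.re ≤ 0 → ‖P (rho ψ) z‖ * (1 + ‖z‖) ^ 2 ≤ C * Real.exp (z.re / 2) := by
  obtain ⟨C1, h1, h2⟩ := P_bound (rho_TF h) 2
  obtain ⟨C2, h3, h4⟩ := P_bound (rho_TF' h) 2
  refine ⟨max C1 C2, h1.trans (le_max_left _ _), fun z hz => ?_, fun z hz => ?_⟩
  · refine (h2 z hz).trans ?_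
    rw [one_mul]
    exact mul_le_mul_of_nonneg_right (le_max_left _ _) (Real.exp_pos _).le
  · have h5 := h4 (-z) (by simpa using hz)
    rw [P_refl, neg_neg, norm_neg] at h5
    refine h5.trans ?_
    have e : -(1 / 2) * (-z).re = z.re / 2 := by simp; ring
    rw [e]
    exact mul_le_mul_of_nonneg_right (le_max_right _ _) (Real.exp_pos _).le

lemma hd1 (h : CutR ψ) (x : ℝ) : HasDerivAt (fun x : ℝ => (ψ x : ℂ)) (rho ψ x) x :=
  ((h.cd.differentiable (by simp)) x).hasDerivAt.ofReal_comp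

lemma hd2 (h : CutR ψ) (x : ℝ) : HasDerivAt (fun x : ℝ => ((ψ x - 1 : ℝ) : ℂ)) (rho ψ x) x :=
  (((h.cd.differentiable (by simp)) x).hasDerivAt.sub_const 1).ofReal_comp

lemma P1_eq (h : CutR ψ) {z : ℂ} (hz : 0 < z.re) :
    P (fun x => (ψ x : ℂ)) z = -P (rho ψ) z / z := by
  have hz0 : z ≠ 0 := by
    rintro rfl
    simp at hz
  have := ibp (hd1 h) z (int_pos h hz) ((rho_TF h).int_exp z)
  rw [← this]
  field_simp

lemma P2_eq (h : CutR ψ) {z : ℂ} (hz : z.re < 0) :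
    P (fun x => ((ψ x - 1 : ℝ) : ℂ)) z = -P (rho ψ) z / z := by
  have hz0 : z ≠ 0 := by
    rintro rfl
    simp at hz
  have := ibp (hd2 h) z (int_neg h hz) ((rho_TF h).int_exp z)
  rw [← this]
  field_simp

/-- the kernel -/
def Qk (ψ : ℝ → ℝ) (z : ℂ) : ℂ := -P (rho ψ) z / z

lemma Qk_cont (h : CutR ψ) {c : ℝ} (hc : c ≠ 0) : Continuous (fun y : ℝ => Qk ψ (c + y * I)) := by
  have h1 : Continuous (P (rho ψ)) := (P_diff (rho_TF h)).continuous
  unfold Qk
  refine Continuous.div ?_ (by fun_prop) ?_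
  · exact (h1.comp (by fun_prop)).neg
  · intro y h0
    have := congrArg Complex.re h0
    simp at this
    exact hc this

lemma Qk_bd (h : CutR ψ) : ∃ C : ℝ, 0 ≤ C ∧
    (∀ c y : ℝ, 1 ≤ c → ‖Qk ψ (c + y * I)‖ ≤ C * Real.exp c * ((1 + |y|) ^ 2)⁻¹) ∧
    ∀ c y : ℝ, 1 ≤ c → ‖Qk ψ (((-c : ℝ) : ℂ) + y * I)‖ ≤
      C * Real.exp (-c / 2) * ((1 + |y|) ^ 2)⁻¹ := by
  obtain ⟨C, hC0, h1, h2⟩ := rho_bd h
  have key : ∀ (z : ℂ) (y B : ℝ), 1 ≤ ‖z‖ → |y| ≤ ‖z‖ → 0 ≤ B → ‖P (rho ψ) z‖ * (1 + ‖z‖) ^ 2 ≤ B →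
      ‖Qk ψ z‖ ≤ B * ((1 + |y|) ^ 2)⁻¹ := by
    intro z y B hz hy hB hP
    unfold Qk
    rw [norm_div, norm_neg]
    have h3 : ‖P (rho ψ) z‖ / ‖z‖ ≤ ‖P (rho ψ) z‖ := div_le_self (norm_nonneg _) hz
    refine h3.trans ?_
    rw [← div_eq_mul_inv, le_div_iff₀ (by positivity)]
    refine le_trans ?_ hP
    gcongr
  refine ⟨C, hC0, fun c y hc => ?_, fun c y hc => ?_⟩
  · have e1 : ((c : ℂ) + y * I).re = c := by simp
    have e2 : ((c : ℂ) + y * I).im = y := by simp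
    have h3 := Complex.abs_re_le_norm ((c : ℂ) + y * I)
    have h4 := Complex.abs_im_le_norm ((c : ℂ) + y * I)
    rw [e1, abs_of_pos (by linarith)] at h3
    rw [e2] at h4
    refine key _ y _ (hc.trans h3) h4 (by positivity) ?_
    have := h1 ((c : ℂ) + y * I) (by rw [e1]; linarith)
    rwa [e1] at this
  · have e1 : (((-c : ℝ) : ℂ) + y * I).re = -c := by simp
    have e2 : (((-c : ℝ) : ℂ) + y * I).im = y := by simp
    have h3 := Complex.abs_re_le_norm (((-c : ℝ) : ℂ) + y * I)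
    have h4 := Complex.abs_im_le_norm (((-c : ℝ) : ℂ) + y * I)
    rw [e1, abs_neg, abs_of_pos (by linarith)] at h3
    rw [e2] at h4
    refine key _ y _ (hc.trans h3) h4 (by positivity) ?_
    have := h2 (((-c : ℝ) : ℂ) + y * I) (by rw [e1]; linarith)
    rwa [e1] at this

/-- inversion on the right -/
lemma inv_pos' (h : CutR ψ) {c : ℝ} (hc : 1 ≤ c) (x : ℝ) :
    ∫ y : ℝ, Qk ψ (c + y * I) * exp (-(x * y) * I) = 2 * Real.pi * ((ψ x : ℂ) * exp (x * c)) := by
  obtain ⟨C, _, h1, _⟩ := Qk_bd h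
  have e : ∀ y : ℝ, P (fun x => (ψ x : ℂ)) (c + y * I) = Qk ψ (c + y * I) := by
    intro y
    exact P1_eq h (by simp; linarith)
  have hψ : Continuous (fun x : ℝ => (ψ x : ℂ)) := by
    have := h.cd.continuous
    fun_prop
  have h2 := inv_line (K := C * Real.exp c) hψ (c := c) (int_pos h (by simp; linarith))
    (fun y => by rw [e]; exact h1 c y hc) (by simp only [e]; exact Qk_cont h (by linarith)) x
  simp only [e] at h2
  exact h2

/-- inversion on the left -/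
lemma inv_neg' (h : CutR ψ) {c : ℝ} (hc : 1 ≤ c) (x : ℝ) :
    ∫ y : ℝ, Qk ψ (((-c : ℝ) : ℂ) + y * I) * exp (-(x * y) * I) =
      2 * Real.pi * (((ψ x - 1 : ℝ) : ℂ) * exp (x * ((-c : ℝ) : ℂ))) := by
  obtain ⟨C, _, _, h1⟩ := Qk_bd h
  have e : ∀ y : ℝ, P (fun x => ((ψ x - 1 : ℝ) : ℂ)) (((-c : ℝ) : ℂ) + y * I) =
      Qk ψ (((-c : ℝ) : ℂ) + y * I) := by
    intro y
    exact P2_eq h (by simp; linarith)
  have hψ : Continuous (fun x : ℝ => ((ψ x - 1 : ℝ) : ℂ)) := by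
    have := h.cd.continuous
    fun_prop
  have h2 := inv_line (K := C * Real.exp (-c / 2)) hψ (c := -c) (int_neg h (by simp; linarith))
    (fun y => by rw [e]; exact h1 c y hc)
    (by simp only [e]; exact Qk_cont h (by intro h0; linarith)) x
  simp only [e] at h2
  exact h2

end

end Pool.Agent.TH757.GS
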